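import Mathlib

set_option autoImplicit false

open MeasureTheory

namespace Pool.Agent.Work.MP_90e10c_an

/-! ### Definitions used in the statement -/

/-- The exponential `e_l(x) = exp(-2 pi i l x)`. -/
noncomputable def expo (l x : ℝ) : ℂ := Complex.exp (-2 * Real.pi * Complex.I * l * x)

/-- `(μ, Λ)` is a spectral pair: `Λ` is countable and the exponentials `e_l`, `l ∈ Λ`, form an
orthonormal basis (a Hilbert basis) of `L²(μ)`. -/
def IsSpectralPair (μ : Measure ℝ) (Λ : Set ℝ) : Prop :=
  Λ.Countable ∧ ∃ b : HilbertBasis Λ ℂ (Lp ℂ 2 μ), ∀ l : Λ, (b l : ℝ → ℂ) =ᵐ[μ] expo l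

/-- `t` is a complete number of `(μ, Λ)`: the pair `(μ, tΛ)` is again a spectral pair. -/
def IsCompleteNumber (μ : Measure ℝ) (Λ : Set ℝ) (t : ℝ) : Prop :=
  IsSpectralPair μ ((fun l => t * l) '' Λ)

/-- `(μ, Λ)` is a singular spectral pair: `μ` is a Borel probability measure on the line which is
carried by a compact set, `(μ, Λ)` is a spectral pair, `μ` is singular with respect to Lebesgue
measure, and `μ` is not a finite sum of point masses with equal weights. -/
structure IsSingularSpectralPair (μ : Measure ℝ) (Λ : Set ℝ) : Prop where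
  prob : IsProbabilityMeasure μ
  compact_support : ∃ K : Set ℝ, IsCompact K ∧ μ Kᶜ = 0
  spectral : IsSpectralPair μ Λ
  singular : μ ⟂ₘ volume
  not_discrete : ¬ ∃ s : Finset ℝ, μ = (s.card : ENNReal)⁻¹ • ∑ x ∈ s, Measure.dirac x

end Pool.Agent.Work.MP_90e10c_an
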