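import Mathlib
import Pool.Agent.Work.MP_90e10c_an.Defs

set_option autoImplicit false

open MeasureTheory

namespace Pool.Agent.Work.MP_90e10c_an

/-! ### Exponentials -/

lemma expo_zero (x : ℝ) : expo 0 x = 1 := by simp [expo]

lemma expo_add (l l' x : ℝ) : expo (l + l') x = expo l x * expo l' x := by
  simp only [expo]; rw [← Complex.exp_add]; congr 1; push_cast; ring

lemma norm_expo (l x : ℝ) : ‖expo l x‖ = 1 := by
  have : expo l x = Complex.exp (((-2 * Real.pi * l * x : ℝ) : ℂ) * Complex.I) := by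
    simp only [expo]; congr 1; push_cast; ring
  rw [this, Complex.norm_exp_ofReal_mul_I]

lemma conj_expo (l x : ℝ) : (starRingEnd ℂ) (expo l x) = expo (-l) x := by
  simp only [expo]
  rw [← Complex.exp_conj]
  congr 1
  simp [map_ofNat]

lemma expo_add' (l x y : ℝ) : expo l (x + y) = expo l x * expo l y := by
  simp only [expo]; rw [← Complex.exp_add]; congr 1; push_cast; ring

lemma expo_congr (l x l' x' : ℝ) (h : l * x = l' * x') : expo l x = expo l' x' := by
  simp only [expo]; congr 1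
  have : ((l * x : ℝ) : ℂ) = ((l' * x' : ℝ) : ℂ) := by rw [h]
  push_cast at this
  linear_combination (-2 * Real.pi * Complex.I) * this

lemma expo_pow (l x : ℝ) (n : ℕ) : expo l x ^ n = expo (n * l) x := by
  simp only [expo]; rw [← Complex.exp_nat_mul]; congr 1; push_cast; ring

/-- expo l x = 1 iff l x integer -/
lemma expo_eq_one_iff (l x : ℝ) : expo l x = 1 ↔ ∃ k : ℤ, l * x = k := by
  simp only [expo]
  rw [Complex.exp_eq_one_iff]
  constructor
  · rintro ⟨n, hn⟩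
    refine ⟨-n, ?_⟩
    have h2 : (2 * Real.pi * Complex.I : ℂ) ≠ 0 := by
      simp [Real.pi_ne_zero]
    have : ((l * x : ℝ) : ℂ) = ((-n : ℤ) : ℝ) := by
      have h3 : (2 * Real.pi * Complex.I : ℂ) * ((l * x : ℝ) : ℂ) = (2 * Real.pi * Complex.I : ℂ) * (((-n : ℤ) : ℝ) : ℂ) := by
        push_cast
        linear_combination -hn
      exact mul_left_cancel₀ h2 h3
    exact_mod_cast this
  · rintro ⟨k, hk⟩
    refine ⟨-k, ?_⟩
    have : ((l * x : ℝ) : ℂ) = ((k : ℤ) : ℝ) := by rw [hk]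
    push_cast at this ⊢
    linear_combination (-2 * Real.pi * Complex.I) * this

lemma norm_expo_sub_one_le (l x : ℝ) : ‖expo l x - 1‖ ≤ 2 * Real.pi * |l * x| := by
  have : expo l x = Complex.exp (Complex.I * ((-2 * Real.pi * l * x : ℝ) : ℂ)) := by
    simp only [expo]; congr 1; push_cast; ring
  rw [this]
  refine (Real.norm_exp_I_mul_ofReal_sub_one_le).trans ?_
  rw [Real.norm_eq_abs]
  rw [show -2 * Real.pi * l * x = -(2 * Real.pi * (l * x)) by ring, abs_neg, abs_mul, abs_of_pos (by positivity)]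

def Lk (n : ℕ) : ℕ := (n + 1).factorial * (n + 2).factorial
def Fk (n : ℕ) : ℕ := (n + 2).factorial ^ 2

lemma Lk_pos (n : ℕ) : 0 < Lk n := by unfold Lk; positivity
lemma Fk_pos (n : ℕ) : 0 < Fk n := by unfold Fk; positivity

lemma Fk_eq (n : ℕ) : Fk n = (n + 2) * Lk n := by
  unfold Fk Lk
  rw [show (n + 2).factorial = (n + 2) * (n + 1).factorial from Nat.factorial_succ (n + 1)]
  ring

lemma Lk_succ (n : ℕ) : Lk (n + 1) = (n + 3) * Fk n := by
  unfold Fk Lk
  rw [show (n + 1 + 2).factorial = (n + 3) * (n + 2).factorial from Nat.factorial_succ (n + 2)]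
  ring

lemma Fk_dvd_Lk {n m : ℕ} (h : n < m) : Fk n ∣ Lk m := by
  induction m with
  | zero => omega
  | succ m ih =>
    rw [Lk_succ]
    rcases Nat.lt_succ_iff_lt_or_eq.1 h with h | h
    · refine Dvd.dvd.mul_left ?_ _
      rw [Fk_eq m]
      exact (ih h).mul_left _
    · rw [h]; exact Dvd.intro_left _ rfl

lemma Lk_growth (m k : ℕ) : 2 ^ k * Lk m ≤ Lk (m + k) := by
  induction k with
  | zero => simp
  | succ k ih =>
    rw [← add_assoc, Lk_succ, Fk_eq, pow_succ]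
    have : 2 ≤ (m + k + 3) * (m + k + 2) := by nlinarith
    calc 2 ^ k * 2 * Lk m = 2 * (2 ^ k * Lk m) := by ring
      _ ≤ ((m + k + 3) * (m + k + 2)) * Lk (m + k) := Nat.mul_le_mul this ih
      _ = _ := by ring

/-- geometric sum of roots of unity -/
lemma geom (N : ℕ) (hN : 0 < N) (j : ℤ) (hj : ¬ (N : ℤ) ∣ j) :
    ∑ c ∈ Finset.range N, expo (c : ℝ) ((j : ℝ) / N) = 0 := by
  have hN' : (N : ℝ) ≠ 0 := by positivity
  set r := expo 1 ((j : ℝ) / N) with hr
  have h1 : ∀ c ∈ Finset.range N, expo (c : ℝ) ((j : ℝ) / N) = r ^ c := by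
    intro c _
    rw [hr, expo_pow, mul_one]
  rw [Finset.sum_congr rfl h1]
  have hr1 : r ≠ 1 := by
    intro h
    rw [hr, expo_eq_one_iff] at h
    obtain ⟨k, hk⟩ := h
    apply hj
    refine ⟨k, ?_⟩
    have : (j : ℝ) = N * k := by
      field_simp at hk
      linarith
    exact_mod_cast this
  have hrN : r ^ N = 1 := by
    rw [hr, expo_pow, expo_eq_one_iff]
    refine ⟨j, ?_⟩
    field_simp
  have := mul_geom_sum r N
  rw [hrN, sub_self, mul_eq_zero] at this
  rcases this with h | h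
  · exact absurd (sub_eq_zero.1 h) hr1
  · exact h

/-- one-level mask -/
noncomputable def phi (n : ℕ) (η : ℝ) : ℂ :=
  (1 / ((n : ℂ) + 2)) * ∑ d ∈ Finset.range (n + 2), expo η ((d : ℝ) / Fk n)

lemma norm_phi_le (n : ℕ) (η : ℝ) : ‖phi n η‖ ≤ 1 := by
  unfold phi
  rw [norm_mul]
  have h1 : ‖(1 / ((n : ℂ) + 2))‖ = 1 / ((n : ℝ) + 2) := by
    rw [norm_div, norm_one]
    congr 1
    have : ((n : ℂ) + 2) = ((n + 2 : ℝ) : ℂ) := by push_cast; ring
    rw [this, Complex.norm_real, Real.norm_eq_abs, abs_of_pos (by positivity)]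
  rw [h1]
  have h2 : ‖∑ d ∈ Finset.range (n + 2), expo η ((d : ℝ) / Fk n)‖ ≤ (n : ℝ) + 2 := by
    refine (norm_sum_le _ _).trans ?_
    simp [norm_expo]
  calc 1 / ((n : ℝ) + 2) * _ ≤ 1 / ((n : ℝ) + 2) * ((n : ℝ) + 2) := by gcongr
    _ = 1 := by field_simp

lemma phi_periodic (n : ℕ) (η : ℝ) (k : ℤ) : phi n (η + k * Fk n) = phi n η := by
  unfold phi
  congr 1
  refine Finset.sum_congr rfl (fun d _ => ?_)
  rw [expo_add]
  have : expo ((k : ℝ) * Fk n) ((d : ℝ) / Fk n) = 1 := by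
    rw [expo_eq_one_iff]
    have hF : (Fk n : ℝ) ≠ 0 := by exact_mod_cast (Fk_pos n).ne'
    refine ⟨k * d, ?_⟩
    push_cast
    field_simp
  rw [this, mul_one]

lemma phi_L (n : ℕ) (c : ℤ) (hc : ¬ ((n + 2 : ℕ) : ℤ) ∣ c) : phi n ((c : ℝ) * Lk n) = 0 := by
  unfold phi
  have hL : (Lk n : ℝ) ≠ 0 := by exact_mod_cast (Lk_pos n).ne'
  have : ∑ d ∈ Finset.range (n + 2), expo ((c : ℝ) * Lk n) ((d : ℝ) / Fk n) =
      ∑ d ∈ Finset.range (n + 2), expo (d : ℝ) ((c : ℝ) / (n + 2 : ℕ)) := by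
    refine Finset.sum_congr rfl (fun d _ => ?_)
    apply expo_congr
    rw [Fk_eq]
    push_cast
    field_simp
  rw [this, geom (n + 2) (by omega) c hc, mul_zero]

lemma phi_zero (n : ℕ) (η : ℝ) (h : phi n η = 0) :
    ∃ k : ℤ, η = k * Lk n ∧ ¬ ((n + 2 : ℕ) : ℤ) ∣ k := by
  have hL : (Lk n : ℝ) ≠ 0 := by exact_mod_cast (Lk_pos n).ne'
  have hF : (Fk n : ℝ) ≠ 0 := by exact_mod_cast (Fk_pos n).ne'
  have hn2 : ((n : ℂ) + 2) ≠ 0 := by
    have : ((n : ℂ) + 2) = ((n + 2 : ℕ) : ℂ) := by push_cast; ring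
    rw [this]
    exact_mod_cast (by omega : n + 2 ≠ 0)
  unfold phi at h
  have h0 : ∑ d ∈ Finset.range (n + 2), expo η ((d : ℝ) / Fk n) = 0 := by
    rcases mul_eq_zero.1 h with h | h
    · exact absurd h (one_div_ne_zero hn2)
    · exact h
  set r := expo η (1 / Fk n) with hr
  have h1 : ∀ d ∈ Finset.range (n + 2), expo η ((d : ℝ) / Fk n) = r ^ d := by
    intro d _
    rw [hr, expo_pow]
    apply expo_congr
    ring
  rw [Finset.sum_congr rfl h1] at h0
  have hr1 : r ≠ 1 := by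
    intro h
    rw [h] at h0
    simp at h0
    apply hn2
    exact_mod_cast h0
  have hrN : r ^ (n + 2) = 1 := by
    have := mul_geom_sum r (n + 2)
    rw [h0, mul_zero] at this
    exact (sub_eq_zero.1 this.symm)
  rw [hr, expo_pow, expo_eq_one_iff] at hrN
  obtain ⟨k, hk⟩ := hrN
  have hη : η = k * Lk n := by
    have hFe : (Fk n : ℝ) = (n + 2) * Lk n := by rw [Fk_eq]; push_cast; ring
    rw [hFe] at hk
    push_cast at hk
    field_simp at hk
    linarith
  refine ⟨k, hη, ?_⟩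
  rintro ⟨j, hj⟩
  apply hr1
  rw [hr, expo_eq_one_iff]
  refine ⟨j, ?_⟩
  rw [hη, hj, Fk_eq]
  push_cast
  field_simp


/-- one-level Parseval -/
lemma parseval_one (N : ℕ) (hN : 0 < N) (a : ℕ → ℂ) :
    ∑ c ∈ Finset.range N, ‖∑ d ∈ Finset.range N, a d * expo (-(c : ℝ)) ((d : ℝ) / N)‖ ^ 2 =
      N * ∑ d ∈ Finset.range N, ‖a d‖ ^ 2 := by
  have hN' : (N : ℝ) ≠ 0 := by positivity
  have hC : (∑ c ∈ Finset.range N, (∑ d ∈ Finset.range N, a d * expo (-(c : ℝ)) ((d : ℝ) / N)) *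
      (starRingEnd ℂ) (∑ d ∈ Finset.range N, a d * expo (-(c : ℝ)) ((d : ℝ) / N))) =
      (N : ℂ) * ∑ d ∈ Finset.range N, a d * (starRingEnd ℂ) (a d) := by
    have e1 : ∀ c ∈ Finset.range N, (∑ d ∈ Finset.range N, a d * expo (-(c : ℝ)) ((d : ℝ) / N)) *
      (starRingEnd ℂ) (∑ d ∈ Finset.range N, a d * expo (-(c : ℝ)) ((d : ℝ) / N)) =
      ∑ d ∈ Finset.range N, ∑ d' ∈ Finset.range N, a d * (starRingEnd ℂ) (a d') *
        expo (c : ℝ) ((((d' : ℤ) - (d : ℤ) : ℤ) : ℝ) / N) := by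
      intro c _
      rw [map_sum, Finset.sum_mul_sum]
      refine Finset.sum_congr rfl (fun d _ => Finset.sum_congr rfl (fun d' _ => ?_))
      rw [map_mul, conj_expo, neg_neg]
      have : expo (c : ℝ) ((((d' : ℤ) - (d : ℤ) : ℤ) : ℝ) / N) = expo (-(c : ℝ)) ((d : ℝ) / N) * expo (c : ℝ) ((d' : ℝ) / N) := by
        have h1 : expo (-(c : ℝ)) ((d : ℝ) / N) = expo (c : ℝ) (-(d : ℝ) / N) := by
          apply expo_congr; ring
        rw [h1, ← expo_add']
        congr 1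
        push_cast; ring
      rw [this]; ring
    rw [Finset.sum_congr rfl e1, Finset.sum_comm, Finset.mul_sum]
    refine Finset.sum_congr rfl (fun d hd => ?_)
    rw [Finset.sum_comm, Finset.sum_eq_single d]
    · rw [← Finset.mul_sum]
      have : ∑ i ∈ Finset.range N, expo (i : ℝ) ((((d : ℤ) - (d : ℤ) : ℤ) : ℝ) / N) = N := by
        simp [expo]
      rw [this]; ring
    · intro d' hd' hne
      rw [← Finset.mul_sum, geom N hN, mul_zero]
      intro hdvd
      rw [Finset.mem_range] at hd hd'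
      obtain ⟨k, hk⟩ := hdvd
      have hk0 : k = 0 := by
        by_contra hk0
        have : (N : ℤ) ≤ |(d' : ℤ) - d| := by
          rw [hk, abs_mul, Nat.abs_cast]
          have : 1 ≤ |k| := Int.one_le_abs hk0
          nlinarith
        have h2 : |(d' : ℤ) - d| < N := by
          rw [abs_lt]; constructor <;> omega
        omega
      rw [hk0, mul_zero] at hk
      apply hne
      omega
    · intro h; exact absurd hd h
  have cc : ∀ z : ℂ, z * (starRingEnd ℂ) z = ((‖z‖ ^ 2 : ℝ) : ℂ) := by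
    intro z
    rw [Complex.mul_conj, Complex.normSq_eq_norm_sq]
  simp only [cc] at hC
  exact_mod_cast hC

lemma parseval_phi (n : ℕ) (η : ℝ) :
    ∑ c ∈ Finset.range (n + 2), ‖phi n (η - (c : ℝ) * Lk n)‖ ^ 2 = 1 := by
  have hL : (Lk n : ℝ) ≠ 0 := by exact_mod_cast (Lk_pos n).ne'
  have h := parseval_one (n + 2) (by omega) (fun d => expo η ((d : ℝ) / Fk n))
  have e : ∀ c ∈ Finset.range (n + 2), ‖phi n (η - (c : ℝ) * Lk n)‖ ^ 2 =
      (1 / ((n : ℝ) + 2)) ^ 2 * ‖∑ d ∈ Finset.range (n + 2), expo η ((d : ℝ) / Fk n) * expo (-(c : ℝ)) ((d : ℝ) / (n + 2 : ℕ))‖ ^ 2 := by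
    intro c _
    unfold phi
    rw [norm_mul, mul_pow]
    congr 2
    · rw [norm_div, norm_one]
      congr 1
      have : ((n : ℂ) + 2) = ((n + 2 : ℝ) : ℂ) := by push_cast; ring
      rw [this, Complex.norm_real, Real.norm_eq_abs, abs_of_pos (by positivity)]
    · congr 1
      refine Finset.sum_congr rfl (fun d _ => ?_)
      rw [sub_eq_add_neg, expo_add]
      congr 1
      apply expo_congr
      rw [Fk_eq]
      push_cast
      field_simp
  rw [Finset.sum_congr rfl e, ← Finset.mul_sum, h]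
  simp only [norm_expo]
  simp
  field_simp

/-- frequencies at level m -/
def LamF : ℕ → Finset ℕ
  | 0 => {0}
  | (m + 1) => (LamF m ×ˢ Finset.range (m + 2)).image (fun p => p.1 + p.2 * Lk m)

lemma mem_LamF_succ (m l : ℕ) : l ∈ LamF (m + 1) ↔ ∃ a ∈ LamF m, ∃ c < m + 2, a + c * Lk m = l := by
  simp only [LamF, Finset.mem_image, Finset.mem_product, Finset.mem_range, Prod.exists]
  constructor
  · rintro ⟨a, c, ⟨ha, hc⟩, h⟩; exact ⟨a, ha, c, hc, h⟩
  · rintro ⟨a, ha, c, hc, h⟩; exact ⟨a, c, ⟨ha, hc⟩, h⟩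

lemma LamF_lt (m : ℕ) : ∀ l ∈ LamF m, l * (m + 2) < Lk m := by
  induction m with
  | zero => intro l hl; simp [LamF] at hl; subst hl; simp [Lk_pos]
  | succ m ih =>
    intro l hl
    obtain ⟨a, ha, c, hc, rfl⟩ := (mem_LamF_succ m l).1 hl
    have h1 := ih a ha
    rw [Lk_succ, Fk_eq]
    have h2 : a < Lk m := by nlinarith
    have h3 : a + c * Lk m < (m + 2) * Lk m := by
      have : c * Lk m ≤ (m + 1) * Lk m := Nat.mul_le_mul_right _ (by omega)
      nlinarith
    nlinarith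

lemma LamF_lt' (m : ℕ) (l : ℕ) (hl : l ∈ LamF m) : l < Lk m := by
  have := LamF_lt m l hl
  nlinarith

lemma LamF_mono (m : ℕ) : LamF m ⊆ LamF (m + 1) := by
  intro l hl
  exact (mem_LamF_succ m l).2 ⟨l, hl, 0, by omega, by simp⟩

lemma LamF_mono' {m m' : ℕ} (h : m ≤ m') : LamF m ⊆ LamF m' := by
  induction h with
  | refl => exact Finset.Subset.refl _
  | step h ih => exact ih.trans (LamF_mono _)

lemma zero_mem_LamF (m : ℕ) : 0 ∈ LamF m := LamF_mono' (Nat.zero_le m) (by simp [LamF])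

lemma Lk_mem_LamF (m : ℕ) : Lk m ∈ LamF (m + 1) :=
  (mem_LamF_succ m _).2 ⟨0, zero_mem_LamF m, 1, by omega, by simp⟩

lemma phi_shift (n m : ℕ) (h : n < m) (η : ℝ) (c : ℤ) : phi n (η + c * Lk m) = phi n η := by
  obtain ⟨k, hk⟩ := Fk_dvd_Lk h
  have := phi_periodic n η (c * k)
  rw [← this]
  congr 2
  rw [hk]; push_cast; ring

lemma LamF_orth (m : ℕ) : ∀ a ∈ LamF m, ∀ a' ∈ LamF m, a ≠ a' → ∃ n < m, phi n ((a : ℝ) - a') = 0 := by
  induction m with
  | zero => intro a ha a' ha' hne; simp [LamF] at ha ha'; omega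
  | succ m ih =>
    intro l hl l' hl' hne
    obtain ⟨a, ha, c, hc, rfl⟩ := (mem_LamF_succ m l).1 hl
    obtain ⟨a', ha', c', hc', rfl⟩ := (mem_LamF_succ m l').1 hl'
    by_cases haa : a = a'
    · subst haa
      refine ⟨m, by omega, ?_⟩
      have h1 : (((a + c * Lk m : ℕ) : ℝ) - ((a + c' * Lk m : ℕ) : ℝ)) = (((c : ℤ) - c' : ℤ) : ℝ) * Lk m := by
        push_cast; ring
      rw [h1]
      apply phi_L
      rintro ⟨k, hk⟩
      have hcc : c ≠ c' := fun h => hne (by rw [h])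
      have hk0 : k ≠ 0 := by
        rintro rfl
        apply hcc; omega
      have : ((m + 2 : ℕ) : ℤ) ≤ |(c : ℤ) - c'| := by
        rw [hk, abs_mul, Nat.abs_cast]
        have : 1 ≤ |k| := Int.one_le_abs hk0
        nlinarith
      have h2 : |(c : ℤ) - c'| < (m + 2 : ℕ) := by
        rw [abs_lt]; constructor <;> omega
      omega
    · obtain ⟨n, hn, h⟩ := ih a ha a' ha' haa
      refine ⟨n, by omega, ?_⟩
      rw [← h, ← phi_shift n m hn ((a : ℝ) - a') ((c : ℤ) - c')]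
      congr 1
      push_cast; ring

lemma LamF_parseval (m : ℕ) (ξ : ℝ) :
    ∑ a ∈ LamF m, ∏ n ∈ Finset.range m, ‖phi n (ξ - a)‖ ^ 2 = 1 := by
  induction m with
  | zero => simp [LamF]
  | succ m ih =>
    rw [LamF, Finset.sum_image, Finset.sum_product]
    · rw [← ih]
      refine Finset.sum_congr rfl (fun a ha => ?_)
      have e : ∀ c ∈ Finset.range (m + 2), ∏ n ∈ Finset.range (m + 1), ‖phi n (ξ - ((a + c * Lk m : ℕ) : ℝ))‖ ^ 2 =
          (∏ n ∈ Finset.range m, ‖phi n (ξ - a)‖ ^ 2) * ‖phi m ((ξ - a) - (c : ℝ) * Lk m)‖ ^ 2 := by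
        intro c _
        rw [Finset.prod_range_succ]
        congr 1
        · refine Finset.prod_congr rfl (fun n hn => ?_)
          rw [← phi_shift n m (Finset.mem_range.1 hn) (ξ - a) (-(c : ℤ))]
          congr 3
          push_cast; ring
        · congr 3
          push_cast; ring
      rw [Finset.sum_congr rfl e, ← Finset.mul_sum, parseval_phi, mul_one]
    · rintro ⟨a, c⟩ h1 ⟨a', c'⟩ h2 h
      simp only [Finset.coe_product, Set.mem_prod, Finset.mem_coe, Finset.mem_range] at h1 h2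
      simp only at h
      have ha := LamF_lt' m a h1.1
      have ha' := LamF_lt' m a' h2.1
      have hc : c = c' := by
        have e1 : (a + c * Lk m) / Lk m = c := by
          rw [Nat.add_mul_div_right _ _ (Lk_pos m), Nat.div_eq_of_lt ha, zero_add]
        have e2 : (a' + c' * Lk m) / Lk m = c' := by
          rw [Nat.add_mul_div_right _ _ (Lk_pos m), Nat.div_eq_of_lt ha', zero_add]
        rw [← e1, ← e2, h]
      subst hc
      have : a = a' := by omega
      rw [this]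


/-! ### General facts on spectral pairs -/

lemma continuous_expo (l : ℝ) : Continuous (expo l) := by
  unfold expo; fun_prop

lemma expo_sub (l l' x : ℝ) : expo (l' - l) x = (starRingEnd ℂ) (expo l x) * expo l' x := by
  rw [conj_expo, ← expo_add]; congr 1; ring

lemma memLp_expo (μ : Measure ℝ) [IsProbabilityMeasure μ] (l : ℝ) : MemLp (expo l) 2 μ := by
  refine MemLp.of_bound (continuous_expo l).aestronglyMeasurable 1 ?_
  exact Filter.Eventually.of_forall (fun x => (norm_expo l x).le)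

lemma integrable_expo (μ : Measure ℝ) [IsProbabilityMeasure μ] (l : ℝ) : Integrable (expo l) μ :=
  (memLp_expo μ l).integrable (by norm_num)

/-- the class of e_l in L² -/
noncomputable def eL (μ : Measure ℝ) [IsProbabilityMeasure μ] (l : ℝ) : Lp ℂ 2 μ :=
  (memLp_expo μ l).toLp (expo l)

lemma coe_eL (μ : Measure ℝ) [IsProbabilityMeasure μ] (l : ℝ) : (eL μ l : ℝ → ℂ) =ᵐ[μ] expo l :=
  (memLp_expo μ l).coeFn_toLp

lemma inner_eL_left (μ : Measure ℝ) [IsProbabilityMeasure μ] (l : ℝ) (f : Lp ℂ 2 μ) :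
    inner ℂ (eL μ l) f = ∫ x, (starRingEnd ℂ) (expo l x) * f x ∂μ := by
  rw [MeasureTheory.L2.inner_def]
  refine integral_congr_ae ?_
  filter_upwards [coe_eL μ l] with x hx
  rw [hx]
  simp only [RCLike.inner_apply]
  ring

lemma inner_eL_eL (μ : Measure ℝ) [IsProbabilityMeasure μ] (l l' : ℝ) :
    inner ℂ (eL μ l) (eL μ l') = ∫ x, expo (l' - l) x ∂μ := by
  rw [inner_eL_left]
  refine integral_congr_ae ?_
  filter_upwards [coe_eL μ l'] with x hx
  rw [hx, expo_sub]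

lemma norm_eL (μ : Measure ℝ) [IsProbabilityMeasure μ] (l : ℝ) : ‖eL μ l‖ = 1 := by
  have h : inner ℂ (eL μ l) (eL μ l) = (1 : ℂ) := by
    rw [inner_eL_eL]; simp [expo_zero]
  have h2 : (‖eL μ l‖ : ℝ) ^ 2 = 1 := by
    rw [@norm_sq_eq_re_inner ℂ, h]; simp
  have h3 := norm_nonneg (eL μ l)
  nlinarith

lemma orthonormal_eL (μ : Measure ℝ) [IsProbabilityMeasure μ] (Λ : Set ℝ)
    (horth : ∀ l ∈ Λ, ∀ l' ∈ Λ, l ≠ l' → ∫ x, expo (l' - l) x ∂μ = 0) :
    Orthonormal ℂ (fun l : Λ => eL μ l) := by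
  refine ⟨fun l => norm_eL μ l, ?_⟩
  intro l l' hll'
  show inner ℂ (eL μ l) (eL μ l') = 0
  rw [inner_eL_eL]
  exact horth l l.2 l' l'.2 (fun h => hll' (Subtype.ext h))

lemma spectral_of (μ : Measure ℝ) [IsProbabilityMeasure μ] (Λ : Set ℝ) (hc : Λ.Countable)
    (horth : ∀ l ∈ Λ, ∀ l' ∈ Λ, l ≠ l' → ∫ x, expo (l' - l) x ∂μ = 0)
    (hcomp : ∀ f : Lp ℂ 2 μ, (∀ l ∈ Λ, inner ℂ (eL μ l) f = 0) → f = 0) :
    IsSpectralPair μ Λ := by
  refine ⟨hc, HilbertBasis.mkOfOrthogonalEqBot (orthonormal_eL μ Λ horth) ?_, ?_⟩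
  · rw [Submodule.eq_bot_iff]
    intro f hf
    refine hcomp f (fun l hl => ?_)
    exact (Submodule.mem_orthogonal _ _).1 hf (eL μ l) (Submodule.subset_span ⟨⟨l, hl⟩, rfl⟩)
  · intro l
    rw [HilbertBasis.coe_mkOfOrthogonalEqBot]
    exact coe_eL μ l

/-- consequences of being a spectral pair -/
lemma spectral_orth (μ : Measure ℝ) [IsProbabilityMeasure μ] (Λ : Set ℝ) (h : IsSpectralPair μ Λ) :
    ∀ l ∈ Λ, ∀ l' ∈ Λ, l ≠ l' → ∫ x, expo (l' - l) x ∂μ = 0 := by
  obtain ⟨-, b, hb⟩ := h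
  intro l hl l' hl' hne
  have e1 : b ⟨l, hl⟩ = eL μ l := by
    apply Lp.ext
    exact (hb ⟨l, hl⟩).trans (coe_eL μ l).symm
  have e2 : b ⟨l', hl'⟩ = eL μ l' := by
    apply Lp.ext
    exact (hb ⟨l', hl'⟩).trans (coe_eL μ l').symm
  rw [← inner_eL_eL, ← e1, ← e2]
  exact b.orthonormal.2 (fun h => hne (congrArg Subtype.val h))

lemma spectral_complete (μ : Measure ℝ) [IsProbabilityMeasure μ] (Λ : Set ℝ) (h : IsSpectralPair μ Λ) :
    ∀ f : Lp ℂ 2 μ, (∀ l ∈ Λ, inner ℂ (eL μ l) f = 0) → f = 0 := by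
  obtain ⟨-, b, hb⟩ := h
  intro f hf
  have e1 : ∀ l : Λ, b l = eL μ l := by
    intro l
    apply Lp.ext
    exact (hb l).trans (coe_eL μ l).symm
  apply b.repr.injective
  ext l
  rw [HilbertBasis.repr_apply_apply, e1, hf l l.2]
  simp

lemma bessel_identity {E : Type*} [NormedAddCommGroup E] [InnerProductSpace ℂ E] {ι : Type*}
    {v : ι → E} (hv : Orthonormal ℂ v) (x : E) (s : Finset ι) :
    ‖x - ∑ i ∈ s, inner ℂ (v i) x • v i‖ ^ 2 = ‖x‖ ^ 2 - ∑ i ∈ s, ‖inner ℂ (v i) x‖ ^ 2 := by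
  classical
  have h₂ :
    (∑ i ∈ s, ∑ j ∈ s, inner ℂ (v i) x * inner ℂ x (v j) * inner ℂ (v j) (v i)) = (∑ k ∈ s, inner ℂ (v k) x * inner ℂ x (v k) : ℂ) := by
    exact hv.inner_left_right_finset
  have h₃ : ∀ z : ℂ, RCLike.re (z * (starRingEnd ℂ) z) = ‖z‖ ^ 2 := by
    intro z
    simp only [RCLike.mul_conj]
    norm_cast
  rw [@norm_sub_sq ℂ, sub_add]
  simp only [@InnerProductSpace.norm_sq_eq_re_inner ℂ E, inner_sum, sum_inner]
  simp only [inner_smul_right, two_mul, inner_smul_left, inner_conj_symm, ← mul_assoc, h₂,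
      add_sub_cancel_right, sub_right_inj]
  simp only [map_sum, ← inner_conj_symm x, ← h₃]


/-- real version of uniqueness -/
lemma real_unique (μ : Measure ℝ) [IsProbabilityMeasure μ] (u : ℝ → ℝ) (hu : Integrable u μ)
    (h : ∀ ξ : ℝ, ∫ x, (u x : ℂ) * expo ξ x ∂μ = 0) : u =ᵐ[μ] 0 := by
  set up : ℝ → ℝ := fun x => max (u x) 0
  set un : ℝ → ℝ := fun x => max (-u x) 0
  have hup : Integrable up μ := hu.pos_part
  have hun : Integrable un μ := hu.neg_part
  have hsub : ∀ x, u x = up x - un x := fun x => by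
    simp only [up, un]
    rcases le_total 0 (u x) with h | h
    · rw [max_eq_left h, max_eq_right (by linarith)]; ring
    · rw [max_eq_right h, max_eq_left (by linarith)]; ring
  set νp := μ.withDensity (fun x => ENNReal.ofReal (up x))
  set νn := μ.withDensity (fun x => ENNReal.ofReal (un x))
  have mp : AEMeasurable (fun x => ENNReal.ofReal (up x)) μ := hup.aestronglyMeasurable.aemeasurable.ennreal_ofReal
  have mn : AEMeasurable (fun x => ENNReal.ofReal (un x)) μ := hun.aestronglyMeasurable.aemeasurable.ennreal_ofReal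
  have fp : IsFiniteMeasure νp := isFiniteMeasure_withDensity_ofReal hup.2
  have fn : IsFiniteMeasure νn := isFiniteMeasure_withDensity_ofReal hun.2
  have key : νp = νn := by
    apply Measure.ext_of_charFun
    ext t
    rw [charFun_apply_real, charFun_apply_real]
    have e1 : ∀ (w : ℝ → ℝ) (hw : Integrable w μ) (hw0 : ∀ x, 0 ≤ w x),
        ∫ x, Complex.exp (t * x * Complex.I) ∂(μ.withDensity (fun x => ENNReal.ofReal (w x))) =
          ∫ x, (w x : ℂ) * expo (-(t / (2 * Real.pi))) x ∂μ := by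
      intro w hw hw0
      rw [integral_withDensity_eq_integral_toReal_smul₀ hw.aestronglyMeasurable.aemeasurable.ennreal_ofReal
        (Filter.Eventually.of_forall fun x => ENNReal.ofReal_lt_top)]
      refine integral_congr_ae (Filter.Eventually.of_forall fun x => ?_)
      simp only [ENNReal.toReal_ofReal (hw0 x), Complex.real_smul, expo]
      congr 2
      push_cast
      field_simp
    rw [e1 up hup (fun x => le_max_right _ _), e1 un hun (fun x => le_max_right _ _)]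
    have hi : ∀ (w : ℝ → ℝ) (hw : Integrable w μ) (ξ : ℝ), Integrable (fun x => (w x : ℂ) * expo ξ x) μ := by
      intro w hw ξ
      have := hw.ofReal (𝕜 := ℂ)
      refine this.mul_bdd (c := 1) (continuous_expo ξ).aestronglyMeasurable ?_
      exact Filter.Eventually.of_forall (fun x => (norm_expo ξ x).le)
    have := h (-(t / (2 * Real.pi)))
    rw [← sub_eq_zero, ← integral_sub (hi _ hup _) (hi _ hun _), ← this]
    refine integral_congr_ae (Filter.Eventually.of_forall fun x => ?_)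
    simp only [hsub x]
    push_cast; ring
  have h2 : (fun x => ENNReal.ofReal (up x)) =ᵐ[μ] (fun x => ENNReal.ofReal (un x)) := by
    refine (withDensity_eq_iff mp mn ?_).1 key
    exact (hup.lintegral_lt_top).ne
  filter_upwards [h2] with x hx
  have h3 : up x = un x := by
    have := congrArg ENNReal.toReal hx
    rwa [ENNReal.toReal_ofReal (le_max_right _ _), ENNReal.toReal_ofReal (le_max_right _ _)] at this
  rw [hsub x, h3]; simp


lemma complex_unique (μ : Measure ℝ) [IsProbabilityMeasure μ] (f : Lp ℂ 2 μ)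
    (h : ∀ ξ : ℝ, inner ℂ (eL μ ξ) f = 0) : f = 0 := by
  have hf : Integrable (f : ℝ → ℂ) μ := (Lp.memLp f).integrable (by norm_num)
  have h1 : ∀ ξ : ℝ, ∫ x, f x * expo ξ x ∂μ = 0 := by
    intro ξ
    have := h (-ξ)
    rw [inner_eL_left] at this
    rw [← this]
    refine integral_congr_ae (Filter.Eventually.of_forall fun x => ?_)
    simp only [conj_expo, neg_neg, mul_comm]
  have h2 : ∀ ξ : ℝ, ∫ x, (starRingEnd ℂ) (f x) * expo ξ x ∂μ = 0 := by
    intro ξ
    have := h ξ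
    rw [inner_eL_left] at this
    have h3 := congrArg (starRingEnd ℂ) this
    rw [← integral_conj, map_zero] at h3
    rw [← h3]
    refine integral_congr_ae (Filter.Eventually.of_forall fun x => ?_)
    simp only [map_mul, Complex.conj_conj, mul_comm]
  have hi1 : ∀ ξ : ℝ, Integrable (fun x => f x * expo ξ x) μ := fun ξ =>
    hf.mul_bdd (c := 1) (continuous_expo ξ).aestronglyMeasurable
      (Filter.Eventually.of_forall (fun x => (norm_expo ξ x).le))
  have hi2 : ∀ ξ : ℝ, Integrable (fun x => (starRingEnd ℂ) (f x) * expo ξ x) μ := fun ξ => by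
    have hf' : Integrable (fun x => (starRingEnd ℂ) (f x)) μ := by
      refine ⟨Complex.continuous_conj.comp_aestronglyMeasurable hf.1, ?_⟩
      have := hf.2
      unfold HasFiniteIntegral at this ⊢
      simpa using this
    exact hf'.mul_bdd (c := 1) (continuous_expo ξ).aestronglyMeasurable
      (Filter.Eventually.of_forall (fun x => (norm_expo ξ x).le))
  have hre : (fun x => (f x).re) =ᵐ[μ] 0 := by
    apply real_unique μ _ hf.re
    intro ξ
    have : ∫ x, (f x * expo ξ x + (starRingEnd ℂ) (f x) * expo ξ x) ∂μ = 0 := by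
      rw [integral_add (hi1 ξ) (hi2 ξ), h1, h2, add_zero]
    have h4 : ∫ x, ((f x).re : ℂ) * expo ξ x ∂μ = (1/2 : ℂ) * ∫ x, (f x * expo ξ x + (starRingEnd ℂ) (f x) * expo ξ x) ∂μ := by
      rw [← integral_const_mul]
      refine integral_congr_ae (Filter.Eventually.of_forall fun x => ?_)
      simp only [Complex.re_eq_add_conj]
      ring
    exact h4.trans (by rw [this, mul_zero])
  have him : (fun x => (f x).im) =ᵐ[μ] 0 := by
    apply real_unique μ _ hf.im
    intro ξ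
    have : ∫ x, (f x * expo ξ x - (starRingEnd ℂ) (f x) * expo ξ x) ∂μ = 0 := by
      rw [integral_sub (hi1 ξ) (hi2 ξ), h1, h2, sub_zero]
    have h4 : ∫ x, ((f x).im : ℂ) * expo ξ x ∂μ = (1/(2 * Complex.I) : ℂ) * ∫ x, (f x * expo ξ x - (starRingEnd ℂ) (f x) * expo ξ x) ∂μ := by
      rw [← integral_const_mul]
      refine integral_congr_ae (Filter.Eventually.of_forall fun x => ?_)
      simp only [Complex.im_eq_sub_conj]
      ring
    exact h4.trans (by rw [this, mul_zero])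
  apply Lp.ext
  filter_upwards [hre, him, Lp.coeFn_zero (E := ℂ) 2 μ] with x h1 h2 h3
  rw [h3]
  exact Complex.ext h1 h2

lemma complete_of (μ : Measure ℝ) [IsProbabilityMeasure μ] (Λ : Set ℝ)
    (horth : ∀ l ∈ Λ, ∀ l' ∈ Λ, l ≠ l' → ∫ x, expo (l' - l) x ∂μ = 0)
    (A : ℕ → Finset ℝ) (hA : ∀ m, ∀ l ∈ A m, l ∈ Λ)
    (hP : ∀ ξ : ℝ, Filter.Tendsto (fun m => ∑ l ∈ A m, ‖∫ x, expo (ξ - l) x ∂μ‖ ^ 2) Filter.atTop (nhds 1)) :
    ∀ f : Lp ℂ 2 μ, (∀ l ∈ Λ, inner ℂ (eL μ l) f = 0) → f = 0 := by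
  classical
  intro f hf
  apply complex_unique
  intro ξ
  have hON := orthonormal_eL μ Λ horth
  have hb : ∀ m, ‖inner ℂ f (eL μ ξ)‖ ^ 2 ≤ ‖f‖ ^ 2 * (1 - ∑ l ∈ A m, ‖∫ x, expo (ξ - l) x ∂μ‖ ^ 2) := by
    intro m
    set s : Finset Λ := (A m).subtype (· ∈ Λ) with hs
    have e1 : ∑ l ∈ A m, ‖∫ x, expo (ξ - l) x ∂μ‖ ^ 2 = ∑ i ∈ s, ‖inner ℂ (eL μ (i : ℝ)) (eL μ ξ)‖ ^ 2 := by
      rw [hs, Finset.sum_subtype_of_mem (f := fun l : ℝ => ‖inner ℂ (eL μ l) (eL μ ξ)‖ ^ 2) (hA m)]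
      refine Finset.sum_congr rfl (fun l _ => ?_)
      rw [inner_eL_eL]
    have e2 : inner ℂ f (eL μ ξ) = inner ℂ f (eL μ ξ - ∑ i ∈ s, inner ℂ (eL μ (i : ℝ)) (eL μ ξ) • eL μ (i : ℝ)) := by
      rw [inner_sub_right, inner_sum]
      rw [Finset.sum_eq_zero, sub_zero]
      intro i _
      rw [inner_smul_right]
      have : inner ℂ f (eL μ (i : ℝ)) = 0 := by
        rw [← inner_conj_symm, hf i i.2, map_zero]
      rw [this, mul_zero]
    have e3 := bessel_identity hON (eL μ ξ) s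
    rw [norm_eL, one_pow] at e3
    rw [e1, ← e3, e2, ← mul_pow]
    exact pow_le_pow_left₀ (norm_nonneg _) (norm_inner_le_norm _ _) 2
  have hlim : Filter.Tendsto (fun m => ‖f‖ ^ 2 * (1 - ∑ l ∈ A m, ‖∫ x, expo (ξ - l) x ∂μ‖ ^ 2)) Filter.atTop (nhds 0) := by
    have := ((hP ξ).const_sub 1).const_mul (‖f‖ ^ 2)
    simpa using this
  have h0 : ‖inner ℂ f (eL μ ξ)‖ ^ 2 ≤ 0 := ge_of_tendsto' hlim hb
  have h1 : inner ℂ f (eL μ ξ) = 0 := by
    have := sq_nonneg ‖inner ℂ f (eL μ ξ)‖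
    have h2 : ‖inner ℂ f (eL μ ξ)‖ ^ 2 = 0 := le_antisymm h0 this
    simpa using h2
  rw [← inner_conj_symm, h1, map_zero]

/-- a spectral pair with infinite spectrum has no atoms -/
lemma no_atoms_of (μ : Measure ℝ) [IsProbabilityMeasure μ] (Λ : Set ℝ) (hinf : Λ.Infinite)
    (h : IsSpectralPair μ Λ) (x : ℝ) : μ {x} = 0 := by
  classical
  by_contra hx
  have hm : MeasurableSet ({x} : Set ℝ) := measurableSet_singleton x
  have horth := spectral_orth μ Λ h
  have hON := orthonormal_eL μ Λ horth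
  set v : Lp ℂ 2 μ := indicatorConstLp 2 hm (measure_ne_top μ {x}) (1 : ℂ) with hv
  have hpos : 0 < (μ {x}).toReal := ENNReal.toReal_pos hx (measure_ne_top μ {x})
  have hin : ∀ l : ℝ, ‖inner ℂ (eL μ l) v‖ = (μ {x}).toReal := by
    intro l
    have : inner ℂ (eL μ l) v = (starRingEnd ℂ) (inner ℂ v (eL μ l)) := (inner_conj_symm _ _).symm
    rw [this, RCLike.norm_conj, hv, MeasureTheory.L2.inner_indicatorConstLp_one]
    rw [setIntegral_congr_ae (g := expo l) hm ((coe_eL μ l).mono (fun x hx _ => hx))]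
    rw [Measure.restrict_singleton, integral_smul_measure, integral_dirac, norm_smul, norm_expo]
    simp
  obtain ⟨n, hn⟩ := exists_nat_gt (‖v‖ ^ 2 / (μ {x}).toReal ^ 2)
  obtain ⟨s, hs⟩ : ∃ s : Finset Λ, s.card = n := by
    have : Infinite Λ := hinf.to_subtype
    exact Infinite.exists_subset_card_eq Λ n
  have hB := hON.sum_inner_products_le (x := v) (s := s)
  simp only [hin, Finset.sum_const, hs, nsmul_eq_mul] at hB
  rw [div_lt_iff₀ (by positivity)] at hn
  linarith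


/-! ### the measure -/

abbrev Om : Type := (n : ℕ) → Fin (n + 2)

noncomputable def Um (n : ℕ) : Measure (Fin (n + 2)) := ((n + 2 : ℕ) : ENNReal)⁻¹ • Measure.count

instance (n : ℕ) : IsProbabilityMeasure (Um n) := by
  refine ⟨?_⟩
  simp only [Um, Measure.smul_apply, smul_eq_mul]
  rw [Measure.count_apply MeasurableSet.univ]
  simp only [Set.encard_univ, ENat.card_eq_coe_fintype_card, Fintype.card_fin]
  rw [show ((((n + 2 : ℕ) : ℕ∞)) : ENNReal) = ((n + 2 : ℕ) : ENNReal) by simp]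
  exact ENNReal.inv_mul_cancel (by simp) (ENNReal.natCast_ne_top _)

lemma integral_Um (n : ℕ) (f : Fin (n + 2) → ℂ) :
    ∫ d, f d ∂(Um n) = (1 / ((n : ℂ) + 2)) * ∑ d, f d := by
  rw [Um, integral_smul_measure, integral_count]
  simp only [ENNReal.toReal_inv, ENNReal.toReal_natCast, Complex.real_smul]
  push_cast
  ring

noncomputable def Pm : Measure Om := Measure.infinitePi Um

instance : IsProbabilityMeasure Pm := by unfold Pm; infer_instance

noncomputable def tm (n : ℕ) (ω : Om) : ℝ := ((ω n : ℕ) : ℝ) / Fk n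

noncomputable def xm (m : ℕ) (ω : Om) : ℝ := ∑ n ∈ Finset.range m, tm n ω

noncomputable def Xm (ω : Om) : ℝ := ∑' n, tm n ω

noncomputable def mu : Measure ℝ := Pm.map Xm

lemma tm_nonneg (n : ℕ) (ω : Om) : 0 ≤ tm n ω := by unfold tm; positivity

lemma tm_le (n : ℕ) (ω : Om) : tm n ω ≤ 1 / Lk n := by
  unfold tm
  have hL : (0 : ℝ) < Lk n := by exact_mod_cast Lk_pos n
  have h : ((ω n : ℕ) : ℝ) ≤ n + 2 := by
    have := (ω n).2
    have h2 : (ω n : ℕ) ≤ n + 2 := by omega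
    exact_mod_cast h2
  rw [Fk_eq]
  push_cast
  rw [div_le_div_iff₀ (by positivity) hL]
  nlinarith

lemma inv_Lk_le (m k : ℕ) : (1 : ℝ) / Lk (m + k) ≤ (1 / Lk m) * (1 / 2) ^ k := by
  have h := Lk_growth m k
  have hL : (0 : ℝ) < Lk m := by exact_mod_cast Lk_pos m
  have h' : (2 : ℝ) ^ k * Lk m ≤ Lk (m + k) := by exact_mod_cast h
  rw [one_div_pow, div_mul_div_comm, one_mul]
  apply one_div_le_one_div_of_le (by positivity)
  linarith

lemma sum_inv_Lk_le (m k : ℕ) : ∑ i ∈ Finset.range k, (1 : ℝ) / Lk (m + i) ≤ 2 / Lk m := by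
  have hL : (0 : ℝ) < Lk m := by exact_mod_cast Lk_pos m
  calc ∑ i ∈ Finset.range k, (1 : ℝ) / Lk (m + i) ≤ ∑ i ∈ Finset.range k, (1 / Lk m) * (1 / 2 : ℝ) ^ i :=
        Finset.sum_le_sum (fun i _ => inv_Lk_le m i)
    _ = (1 / Lk m) * ∑ i ∈ Finset.range k, (1 / 2 : ℝ) ^ i := by rw [Finset.mul_sum]
    _ ≤ (1 / Lk m) * 2 := by
        gcongr
        have := Summable.sum_le_tsum (Finset.range k) (fun i _ => by positivity) summable_geometric_two
        rwa [tsum_geometric_two] at this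
    _ = 2 / Lk m := by ring

lemma summable_tm (ω : Om) : Summable (fun n => tm n ω) := by
  refine Summable.of_nonneg_of_le (fun n => tm_nonneg n ω) (fun n => ?_)
    (summable_geometric_two.mul_left ((1 : ℝ) / Lk 0))
  have := inv_Lk_le 0 n
  rw [zero_add] at this
  exact (tm_le n ω).trans this

lemma tendsto_xm (ω : Om) : Filter.Tendsto (fun m => xm m ω) Filter.atTop (nhds (Xm ω)) :=
  (summable_tm ω).hasSum.tendsto_sum_nat

lemma xm_le_Xm (m : ℕ) (ω : Om) : xm m ω ≤ Xm ω :=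
  (summable_tm ω).sum_le_tsum _ (fun n _ => tm_nonneg n ω)

lemma xm_add_le (m k : ℕ) (ω : Om) : xm (m + k) ω ≤ xm m ω + 2 / Lk m := by
  unfold xm
  rw [Finset.sum_range_add]
  gcongr
  exact (Finset.sum_le_sum (fun i _ => tm_le (m + i) ω)).trans (sum_inv_Lk_le m k)

lemma Xm_le (m : ℕ) (ω : Om) : Xm ω ≤ xm m ω + 2 / Lk m := by
  have h : Filter.Tendsto (fun k => xm (m + k) ω) Filter.atTop (nhds (Xm ω)) := by
    have := (tendsto_xm ω).comp (Filter.tendsto_add_atTop_nat m)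
    refine this.congr (fun k => ?_)
    simp [add_comm]
  exact le_of_tendsto' h (fun k => xm_add_le m k ω)

lemma measurable_tm (n : ℕ) : Measurable (tm n) := by
  unfold tm
  have : Measurable (fun ω : Om => ω n) := measurable_pi_apply n
  have h2 : Measurable (fun d : Fin (n + 2) => ((d : ℕ) : ℝ) / Fk n) := measurable_of_finite _
  exact h2.comp this

lemma measurable_xm (m : ℕ) : Measurable (xm m) := by
  unfold xm
  exact Finset.measurable_sum _ (fun n _ => measurable_tm n)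

lemma measurable_Xm : Measurable Xm :=
  measurable_of_tendsto_metrizable measurable_xm (tendsto_pi_nhds.2 tendsto_xm)

instance : IsProbabilityMeasure mu := by
  unfold mu
  exact Measure.isProbabilityMeasure_map measurable_Xm.aemeasurable

lemma expo_sum (η : ℝ) (m : ℕ) (ω : Om) : expo η (xm m ω) = ∏ n ∈ Finset.range m, expo η (tm n ω) := by
  unfold xm
  induction m with
  | zero => simp [expo]
  | succ m ih => rw [Finset.sum_range_succ, Finset.prod_range_succ, expo_add', ih]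

lemma integral_xm (η : ℝ) (m : ℕ) : ∫ ω, expo η (xm m ω) ∂Pm = ∏ n ∈ Finset.range m, phi n η := by
  have e1 : ∀ ω : Om, expo η (xm m ω) = (fun y : (Π i : Finset.range m, Fin ((i : ℕ) + 2)) =>
      ∏ i : Finset.range m, expo η (((y i : ℕ) : ℝ) / Fk i)) ((Finset.range m).restrict ω) := by
    intro ω
    rw [expo_sum, ← Finset.prod_coe_sort]
    rfl
  rw [integral_congr_ae (Filter.Eventually.of_forall e1)]
  have e2 := integral_restrict_infinitePi (μ := Um) (s := Finset.range m)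
    (f := fun y : (Π i : Finset.range m, Fin ((i : ℕ) + 2)) => ∏ i : Finset.range m, expo η (((y i : ℕ) : ℝ) / Fk i))
    (measurable_of_finite _).aestronglyMeasurable
  refine e2.trans ?_
  rw [integral_fintype_prod_eq_prod (𝕜 := ℂ) (fun (i : Finset.range m) (d : Fin ((i : ℕ) + 2)) => expo η (((d : ℕ) : ℝ) / Fk i))]
  rw [← Finset.prod_coe_sort (Finset.range m) (fun n => phi n η)]
  refine Finset.prod_congr rfl (fun i _ => ?_)
  rw [integral_Um, phi, Finset.sum_range]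

lemma tendsto_prod (η : ℝ) : Filter.Tendsto (fun m => ∏ n ∈ Finset.range m, phi n η) Filter.atTop
    (nhds (∫ x, expo η x ∂mu)) := by
  have hc : Continuous (expo η) := by unfold expo; fun_prop
  have e : ∫ x, expo η x ∂mu = ∫ ω, expo η (Xm ω) ∂Pm := by
    unfold mu
    rw [integral_map measurable_Xm.aemeasurable hc.aestronglyMeasurable]
  rw [e]
  simp_rw [← integral_xm]
  refine tendsto_integral_of_dominated_convergence (fun _ => (1 : ℝ)) ?_ (integrable_const _) ?_ ?_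
  · intro m
    exact (hc.measurable.comp (measurable_xm m)).aestronglyMeasurable
  · intro m
    exact Filter.Eventually.of_forall (fun ω => (norm_expo _ _).le)
  · refine Filter.Eventually.of_forall (fun ω => ?_)
    exact (hc.tendsto _).comp (tendsto_xm ω)

lemma norm_phi_sub_one (n : ℕ) (η : ℝ) : ‖phi n η - 1‖ ≤ 2 * Real.pi * |η| * (1 / Lk n) := by
  have hn2 : ((n : ℂ) + 2) ≠ 0 := by
    have : ((n : ℂ) + 2) = ((n + 2 : ℕ) : ℂ) := by push_cast; ring
    rw [this]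
    exact_mod_cast (by omega : n + 2 ≠ 0)
  have h1 : phi n η - 1 = (1 / ((n : ℂ) + 2)) * ∑ d ∈ Finset.range (n + 2), (expo η ((d : ℝ) / Fk n) - 1) := by
    unfold phi
    rw [Finset.sum_sub_distrib]
    simp only [Finset.sum_const, Finset.card_range, nsmul_eq_mul, mul_one]
    push_cast
    field_simp
  rw [h1, norm_mul]
  have h2 : ‖(1 / ((n : ℂ) + 2))‖ = 1 / ((n : ℝ) + 2) := by
    rw [norm_div, norm_one]
    congr 1
    have : ((n : ℂ) + 2) = ((n + 2 : ℝ) : ℂ) := by push_cast; ring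
    rw [this, Complex.norm_real, Real.norm_eq_abs, abs_of_pos (by positivity)]
  have hL : (0 : ℝ) < Lk n := by exact_mod_cast Lk_pos n
  have h3 : ∀ d ∈ Finset.range (n + 2), ‖expo η ((d : ℝ) / Fk n) - 1‖ ≤ 2 * Real.pi * |η| * (1 / Lk n) := by
    intro d hd
    refine (norm_expo_sub_one_le _ _).trans ?_
    rw [abs_mul, ← mul_assoc]
    gcongr
    rw [abs_of_nonneg (by positivity), Fk_eq]
    push_cast
    rw [div_le_div_iff₀ (by positivity) hL]
    have : (d : ℝ) ≤ n + 2 := by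
      have := Finset.mem_range.1 hd
      exact_mod_cast this.le
    nlinarith
  have h4 : ‖∑ d ∈ Finset.range (n + 2), (expo η ((d : ℝ) / Fk n) - 1)‖ ≤ (n + 2 : ℝ) * (2 * Real.pi * |η| * (1 / Lk n)) := by
    refine (norm_sum_le _ _).trans ((Finset.sum_le_sum h3).trans ?_)
    simp
  rw [h2]
  calc 1 / ((n : ℝ) + 2) * _ ≤ 1 / ((n : ℝ) + 2) * ((n + 2 : ℝ) * (2 * Real.pi * |η| * (1 / Lk n))) := by gcongr
    _ = _ := by field_simp

lemma norm_prod_phi_le (s : Finset ℕ) (η : ℝ) : ‖∏ n ∈ s, phi n η‖ ≤ 1 := by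
  rw [norm_prod]
  exact Finset.prod_le_one (fun _ _ => norm_nonneg _) (fun n _ => norm_phi_le n η)

lemma norm_prod_sub_one (m k : ℕ) (η : ℝ) :
    ‖∏ i ∈ Finset.range k, phi (m + i) η - 1‖ ≤ ∑ i ∈ Finset.range k, 2 * Real.pi * |η| * (1 / Lk (m + i)) := by
  induction k with
  | zero => simp
  | succ k ih =>
    rw [Finset.prod_range_succ, Finset.sum_range_succ]
    have h1 : (∏ i ∈ Finset.range k, phi (m + i) η) * phi (m + k) η - 1 =
        (∏ i ∈ Finset.range k, phi (m + i) η - 1) + (∏ i ∈ Finset.range k, phi (m + i) η) * (phi (m + k) η - 1) := by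
      ring
    rw [h1]
    refine (norm_add_le _ _).trans ?_
    refine add_le_add ih ?_
    rw [norm_mul]
    have h2 : ‖∏ i ∈ Finset.range k, phi (m + i) η‖ ≤ 1 := by
      rw [norm_prod]
      exact Finset.prod_le_one (fun _ _ => norm_nonneg _) (fun n _ => norm_phi_le _ η)
    calc ‖∏ i ∈ Finset.range k, phi (m + i) η‖ * ‖phi (m + k) η - 1‖ ≤ 1 * ‖phi (m + k) η - 1‖ := by gcongr
      _ ≤ _ := by rw [one_mul]; exact norm_phi_sub_one _ _

lemma mh_approx (m : ℕ) (η : ℝ) :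
    ‖(∫ x, expo η x ∂mu) - ∏ n ∈ Finset.range m, phi n η‖ ≤
      ‖∏ n ∈ Finset.range m, phi n η‖ * (4 * Real.pi * |η| / Lk m) := by
  have h : Filter.Tendsto (fun k => ∏ n ∈ Finset.range (m + k), phi n η) Filter.atTop
      (nhds (∫ x, expo η x ∂mu)) := by
    have := (tendsto_prod η).comp (Filter.tendsto_add_atTop_nat m)
    refine this.congr (fun k => ?_)
    simp [add_comm]
  have h2 := (h.sub_const (∏ n ∈ Finset.range m, phi n η)).norm
  refine le_of_tendsto' h2 (fun k => ?_)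
  rw [Finset.prod_range_add]
  have : (∏ x ∈ Finset.range m, phi x η) * ∏ x ∈ Finset.range k, phi (m + x) η - ∏ n ∈ Finset.range m, phi n η =
      (∏ x ∈ Finset.range m, phi x η) * (∏ x ∈ Finset.range k, phi (m + x) η - 1) := by ring
  rw [this, norm_mul]
  gcongr
  refine (norm_prod_sub_one m k η).trans ?_
  rw [← Finset.mul_sum]
  calc 2 * Real.pi * |η| * ∑ i ∈ Finset.range k, (1 : ℝ) / Lk (m + i) ≤ 2 * Real.pi * |η| * (2 / Lk m) := by
        gcongr
        exact sum_inv_Lk_le m k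
    _ = _ := by ring

lemma mh_zero_of (η : ℝ) (h : ∃ n, phi n η = 0) : ∫ x, expo η x ∂mu = 0 := by
  obtain ⟨n, hn⟩ := h
  have h1 := mh_approx (n + 1) η
  have h2 : ∏ n ∈ Finset.range (n + 1), phi n η = 0 :=
    Finset.prod_eq_zero (Finset.mem_range.2 (Nat.lt_succ_self n)) hn
  rw [h2] at h1
  simpa using h1

lemma tendsto_Lk : Filter.Tendsto (fun m => (Lk m : ℝ)) Filter.atTop Filter.atTop := by
  have h : ∀ m, ((2 : ℝ) ^ m) ≤ Lk m := by
    intro m
    have h1 := Lk_growth 0 m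
    have h2 : 1 ≤ Lk 0 := Lk_pos 0
    rw [zero_add] at h1
    have : 2 ^ m ≤ Lk m := le_trans (Nat.le_mul_of_pos_right _ h2) h1
    exact_mod_cast this
  exact Filter.tendsto_atTop_mono h (tendsto_pow_atTop_atTop_of_one_lt (by norm_num))

lemma zero_of_mh (η : ℝ) (h : ∫ x, expo η x ∂mu = 0) : ∃ n, phi n η = 0 := by
  obtain ⟨m, hm⟩ := (tendsto_Lk.eventually_gt_atTop (4 * Real.pi * |η|)).exists
  have h1 := mh_approx m η
  rw [h, zero_sub, norm_neg] at h1
  have hL : (0 : ℝ) < Lk m := by exact_mod_cast Lk_pos m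
  have h2 : 4 * Real.pi * |η| / Lk m < 1 := by rwa [div_lt_one hL]
  have h3 : ‖∏ n ∈ Finset.range m, phi n η‖ = 0 := by
    have := norm_nonneg (∏ n ∈ Finset.range m, phi n η)
    nlinarith
  rw [norm_eq_zero, Finset.prod_eq_zero_iff] at h3
  obtain ⟨n, -, hn⟩ := h3
  exact ⟨n, hn⟩


/-! ### spectrum -/

lemma mh_bounds (m : ℕ) (η ε : ℝ) (hε : 4 * Real.pi * |η| / Lk m ≤ ε) (hε1 : ε ≤ 1) :
    (1 - ε) ^ 2 * ∏ n ∈ Finset.range m, ‖phi n η‖ ^ 2 ≤ ‖∫ x, expo η x ∂mu‖ ^ 2 ∧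
    ‖∫ x, expo η x ∂mu‖ ^ 2 ≤ (1 + ε) ^ 2 * ∏ n ∈ Finset.range m, ‖phi n η‖ ^ 2 := by
  have h := mh_approx m η
  set z := ∫ x, expo η x ∂mu
  set w := ∏ n ∈ Finset.range m, phi n η with hw
  have hw2 : ∏ n ∈ Finset.range m, ‖phi n η‖ ^ 2 = ‖w‖ ^ 2 := by
    rw [hw, norm_prod, Finset.prod_pow]
  rw [hw2, ← mul_pow, ← mul_pow]
  have hL : (0 : ℝ) < Lk m := by exact_mod_cast Lk_pos m
  have hε0 : 0 ≤ ε := le_trans (by positivity) hε
  have hwn := norm_nonneg w
  have h1 : ‖z - w‖ ≤ ‖w‖ * ε := h.trans (by gcongr)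
  have h2 : ‖z‖ ≤ ‖w‖ + ‖z - w‖ := by
    calc ‖z‖ = ‖w + (z - w)‖ := by ring_nf
      _ ≤ _ := norm_add_le _ _
  have h3 : ‖w‖ ≤ ‖z‖ + ‖z - w‖ := by
    calc ‖w‖ = ‖z - (z - w)‖ := by ring_nf
      _ ≤ _ := norm_sub_le _ _
  constructor
  · apply pow_le_pow_left₀ (mul_nonneg (by linarith) hwn)
    nlinarith
  · apply pow_le_pow_left₀ (norm_nonneg _)
    nlinarith

def Am (m : ℕ) : Finset ℝ := (LamF m).map (Nat.castEmbedding (R := ℝ))

def Lam : Set ℝ := {x | ∃ m, ∃ a ∈ LamF m, x = (a : ℝ)}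

lemma Am_sub (m : ℕ) : ∀ l ∈ Am m, l ∈ Lam := by
  intro l hl
  simp only [Am, Finset.mem_map, Nat.castEmbedding_apply] at hl
  obtain ⟨a, ha, rfl⟩ := hl
  exact ⟨m, a, ha, rfl⟩

lemma sum_Am (m : ℕ) (g : ℝ → ℝ) : ∑ l ∈ Am m, g l = ∑ a ∈ LamF m, g (a : ℝ) := by
  simp [Am]

lemma tendsto_eps (ξ : ℝ) : Filter.Tendsto (fun m : ℕ => 4 * Real.pi * (|ξ| / Lk m + 1 / ((m : ℝ) + 2)))
    Filter.atTop (nhds 0) := by
  have h1 : Filter.Tendsto (fun m : ℕ => |ξ| / (Lk m : ℝ)) Filter.atTop (nhds 0) :=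
    tendsto_Lk.const_div_atTop _
  have h2 : Filter.Tendsto (fun m : ℕ => 1 / ((m : ℝ) + 2)) Filter.atTop (nhds 0) := by
    have : Filter.Tendsto (fun m : ℕ => (m : ℝ) + 2) Filter.atTop Filter.atTop :=
      Filter.tendsto_atTop_add_const_right _ _ tendsto_natCast_atTop_atTop
    exact this.const_div_atTop _
  have h3 := (h1.add h2).const_mul (4 * Real.pi)
  simpa using h3

lemma parseval_limit (ξ : ℝ) : Filter.Tendsto (fun m => ∑ l ∈ Am m, ‖∫ x, expo (ξ - l) x ∂mu‖ ^ 2)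
    Filter.atTop (nhds 1) := by
  set ε : ℕ → ℝ := fun m => 4 * Real.pi * (|ξ| / Lk m + 1 / ((m : ℝ) + 2)) with hεdef
  have hε := tendsto_eps ξ
  have hlow : Filter.Tendsto (fun m => (1 - ε m) ^ 2) Filter.atTop (nhds 1) := by
    have := (hε.const_sub 1).pow 2
    rw [sub_zero, one_pow] at this
    exact this
  have hup : Filter.Tendsto (fun m => (1 + ε m) ^ 2) Filter.atTop (nhds 1) := by
    have := (hε.const_add 1).pow 2
    rw [add_zero, one_pow] at this
    exact this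
  have hev : ∀ᶠ m in Filter.atTop, ε m ≤ 1 := hε.eventually_le_const (by norm_num)
  have hb : ∀ m, ∀ a ∈ LamF m, 4 * Real.pi * |ξ - a| / Lk m ≤ ε m := by
    intro m a ha
    have hL : (0 : ℝ) < Lk m := by exact_mod_cast Lk_pos m
    have h1 := LamF_lt m a ha
    have h2 : (a : ℝ) * (m + 2) ≤ Lk m := by exact_mod_cast h1.le
    have h3 : (a : ℝ) / Lk m ≤ 1 / ((m : ℝ) + 2) := by
      rw [div_le_div_iff₀ hL (by positivity)]
      linarith
    have h4 : |ξ - a| ≤ |ξ| + a := by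
      have := abs_sub ξ (a : ℝ)
      rwa [Nat.abs_cast] at this
    calc 4 * Real.pi * |ξ - a| / Lk m ≤ 4 * Real.pi * (|ξ| + a) / Lk m := by gcongr
      _ = 4 * Real.pi * (|ξ| / Lk m + a / Lk m) := by ring
      _ ≤ 4 * Real.pi * (|ξ| / Lk m + 1 / ((m : ℝ) + 2)) := by gcongr
  refine tendsto_of_tendsto_of_tendsto_of_le_of_le' hlow hup ?_ ?_
  · filter_upwards [hev] with m hm
    rw [sum_Am m (fun l => ‖∫ x, expo (ξ - l) x ∂mu‖ ^ 2)]
    calc (1 - ε m) ^ 2 = (1 - ε m) ^ 2 * ∑ a ∈ LamF m, ∏ n ∈ Finset.range m, ‖phi n (ξ - a)‖ ^ 2 := by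
          rw [LamF_parseval, mul_one]
      _ = ∑ a ∈ LamF m, (1 - ε m) ^ 2 * ∏ n ∈ Finset.range m, ‖phi n (ξ - a)‖ ^ 2 := by
          rw [Finset.mul_sum]
      _ ≤ _ := Finset.sum_le_sum (fun a ha => (mh_bounds m (ξ - a) (ε m) (hb m a ha) hm).1)
  · filter_upwards [hev] with m hm
    rw [sum_Am m (fun l => ‖∫ x, expo (ξ - l) x ∂mu‖ ^ 2)]
    calc _ ≤ ∑ a ∈ LamF m, (1 + ε m) ^ 2 * ∏ n ∈ Finset.range m, ‖phi n (ξ - a)‖ ^ 2 :=
          Finset.sum_le_sum (fun a ha => (mh_bounds m (ξ - a) (ε m) (hb m a ha) hm).2)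
      _ = (1 + ε m) ^ 2 * ∑ a ∈ LamF m, ∏ n ∈ Finset.range m, ‖phi n (ξ - a)‖ ^ 2 := by
          rw [Finset.mul_sum]
      _ = (1 + ε m) ^ 2 := by
          rw [LamF_parseval, mul_one]

lemma mh_neg (η : ℝ) : ∫ x, expo (-η) x ∂mu = (starRingEnd ℂ) (∫ x, expo η x ∂mu) := by
  rw [← integral_conj]
  refine integral_congr_ae (Filter.Eventually.of_forall fun x => ?_)
  simp only [conj_expo]

lemma Lam_orth : ∀ l ∈ Lam, ∀ l' ∈ Lam, l ≠ l' → ∫ x, expo (l' - l) x ∂mu = 0 := by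
  rintro l ⟨m, a, ha, rfl⟩ l' ⟨m', a', ha', rfl⟩ hne
  have h1 := LamF_mono' (le_max_left m m') ha
  have h2 := LamF_mono' (le_max_right m m') ha'
  obtain ⟨n, -, hn⟩ := LamF_orth (max m m') a' h2 a h1 (fun h => hne (by rw [h]))
  exact mh_zero_of _ ⟨n, hn⟩

lemma Lam_countable : Lam.Countable := by
  have : Lam ⊆ Set.range (fun a : ℕ => (a : ℝ)) := by
    rintro l ⟨m, a, ha, rfl⟩
    exact ⟨a, rfl⟩
  exact (Set.countable_range _).mono this

lemma Lam_spectral : IsSpectralPair mu Lam :=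
  spectral_of mu Lam Lam_countable Lam_orth (complete_of mu Lam Lam_orth Am Am_sub parseval_limit)

lemma Lam_neg_spectral : IsSpectralPair mu ((fun l => (-1 : ℝ) * l) '' Lam) := by
  have horth : ∀ l ∈ ((fun l => (-1 : ℝ) * l) '' Lam), ∀ l' ∈ ((fun l => (-1 : ℝ) * l) '' Lam), l ≠ l' →
      ∫ x, expo (l' - l) x ∂mu = 0 := by
    rintro _ ⟨l, hl, rfl⟩ _ ⟨l', hl', rfl⟩ hne
    have h := Lam_orth l' hl' l hl (fun h => hne (by rw [h]))
    simp only
    rw [show (-1 : ℝ) * l' - -1 * l = l - l' by ring]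
    exact h
  refine spectral_of mu _ (Lam_countable.image _) horth
    (complete_of mu _ horth (fun m => (Am m).map ⟨fun l => (-1 : ℝ) * l, ?_⟩) ?_ ?_)
  · intro x y h
    simpa using h
  · intro m l hl
    rw [Finset.mem_map] at hl
    obtain ⟨a, ha, rfl⟩ := hl
    exact ⟨a, Am_sub m a ha, rfl⟩
  · intro ξ
    refine (parseval_limit (-ξ)).congr (fun m => ?_)
    rw [Finset.sum_map]
    refine Finset.sum_congr rfl (fun l _ => ?_)
    show ‖∫ x, expo (-ξ - l) x ∂mu‖ ^ 2 = ‖∫ x, expo (ξ - -1 * l) x ∂mu‖ ^ 2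
    rw [show -ξ - l = -(ξ - -1 * l) by ring, mh_neg, RCLike.norm_conj]

lemma Lk_mem_Lam (n : ℕ) : (Lk n : ℝ) ∈ Lam := ⟨n + 1, Lk n, Lk_mem_LamF n, rfl⟩

lemma zero_mem_Lam : (0 : ℝ) ∈ Lam := ⟨0, 0, zero_mem_LamF 0, by simp⟩

lemma Lk_strictMono : StrictMono Lk := by
  apply strictMono_nat_of_lt_succ
  intro n
  rw [Lk_succ, Fk_eq]
  have h := Lk_pos n
  have h2 : 2 ≤ (n + 3) * (n + 2) := by nlinarith
  calc Lk n < 2 * Lk n := by omega
    _ ≤ ((n + 3) * (n + 2)) * Lk n := Nat.mul_le_mul_right _ h2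
    _ = _ := by ring

lemma Lam_infinite : Lam.Infinite := by
  apply Set.infinite_of_injective_forall_mem (f := fun n : ℕ => (Lk n : ℝ))
  · intro a b h
    have h' : (Lk a : ℝ) = Lk b := h
    exact Lk_strictMono.injective (by exact_mod_cast h')
  · exact Lk_mem_Lam

/-- the main arithmetic argument -/
lemma complete_eq (t : ℝ) (h : IsSpectralPair mu ((fun l => t * l) '' Lam)) : t = 1 ∨ t = -1 := by
  have horth := spectral_orth mu _ h
  have hcomp := spectral_complete mu _ h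
  have h0 : (0 : ℝ) ∈ ((fun l => t * l) '' Lam) := ⟨0, zero_mem_Lam, by simp⟩
  have ht0 : t ≠ 0 := by
    rintro rfl
    have hz : eL mu (Lk 0 : ℝ) = 0 := by
      apply hcomp
      rintro _ ⟨l, hl, rfl⟩
      simp only [zero_mul]
      rw [inner_eL_eL]
      exact Lam_orth 0 zero_mem_Lam (Lk 0) (Lk_mem_Lam 0) (by exact_mod_cast (Lk_pos 0).ne)
    have := norm_eL mu (Lk 0 : ℝ)
    rw [hz, norm_zero] at this
    norm_num at this
  have key : ∀ n : ℕ, ∃ j : ℕ, ∃ k : ℤ, t * Lk n = k * Lk j ∧ ¬ ((j + 2 : ℕ) : ℤ) ∣ k := by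
    intro n
    have hL : (Lk n : ℝ) ≠ 0 := by exact_mod_cast (Lk_pos n).ne'
    have h1 := horth 0 h0 (t * Lk n) ⟨Lk n, Lk_mem_Lam n, rfl⟩ (by
      intro h; exact (mul_ne_zero ht0 hL) h.symm)
    rw [sub_zero] at h1
    obtain ⟨j, hj⟩ := zero_of_mh _ h1
    obtain ⟨k, hk, hk2⟩ := phi_zero j _ hj
    exact ⟨j, k, hk, hk2⟩
  -- t is an integer
  obtain ⟨T, hT⟩ : ∃ T : ℤ, t = T := by
    obtain ⟨j, k, hk, -⟩ := key 0
    have h2 : (2 : ℕ) ∣ Lk j := by
      unfold Lk
      exact Dvd.dvd.mul_left (Nat.dvd_factorial (by norm_num) (by omega)) _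
    obtain ⟨q, hq⟩ := h2
    refine ⟨k * q, ?_⟩
    have h3 : (Lk 0 : ℝ) = 2 := by norm_num [Lk, Nat.factorial]
    rw [h3, hq] at hk
    push_cast at hk ⊢
    linarith
  subst hT
  have hT0 : T ≠ 0 := by rintro rfl; simp at ht0
  by_contra hcon
  push Not at hcon
  have hT2 : 2 ≤ T.natAbs := by
    rcases hcon with ⟨h1, h2⟩
    have h1' : T ≠ 1 := by rintro rfl; simp at h1
    have h2' : T ≠ -1 := by rintro rfl; simp at h2
    omega
  obtain ⟨n, hn⟩ : ∃ n, T.natAbs = n + 2 := ⟨T.natAbs - 2, by omega⟩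
  obtain ⟨j, k, hk, hk2⟩ := key n
  have hk' : T * Lk n = k * Lk j := by exact_mod_cast hk
  have hF : (Fk n : ℤ) = |T| * Lk n := by
    rw [Fk_eq, ← hn]
    push_cast
    rw [Int.abs_eq_natAbs]
  have habs : |T| * Lk n = |k| * Lk j := by
    have := congrArg abs hk'
    rwa [abs_mul, abs_mul, Nat.abs_cast, Nat.abs_cast] at this
  rcases le_or_gt j n with hjn | hjn
  · -- F j divides F n
    have hdvd : Fk j ∣ Fk n := by
      rcases Nat.lt_or_eq_of_le hjn with h | h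
      · exact (Fk_dvd_Lk h).trans (by rw [Fk_eq n]; exact Dvd.intro_left _ rfl)
      · rw [h]
    obtain ⟨q, hq⟩ := hdvd
    apply hk2
    rw [← dvd_abs]
    refine ⟨q, ?_⟩
    have hLj : (Lk j : ℤ) ≠ 0 := by exact_mod_cast (Lk_pos j).ne'
    have : |k| * Lk j = ((j + 2 : ℕ) * q : ℤ) * Lk j := by
      rw [← habs, ← hF, hq, Fk_eq]
      push_cast; ring
    exact mul_right_cancel₀ hLj this
  · -- L j > F n
    have h1 : Fk n < Lk j := by
      have h2 : Lk (n + 1) ≤ Lk j := Lk_strictMono.monotone hjn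
      rw [Lk_succ] at h2
      have := Fk_pos n
      nlinarith
    have hk0 : k ≠ 0 := by rintro rfl; simp at hk2
    have h3 : (Lk j : ℤ) ≤ |k| * Lk j := by
      have h4 : 1 ≤ |k| := Int.one_le_abs hk0
      have h5 : (0 : ℤ) < Lk j := by exact_mod_cast Lk_pos j
      nlinarith
    rw [← habs, ← hF] at h3
    have : Lk j ≤ Fk n := by exact_mod_cast h3
    omega

/-! ### singularity -/

noncomputable def Bm : ℕ → Finset ℝ
  | 0 => {0}
  | (m + 1) => (Bm m ×ˢ Finset.range (m + 2)).image (fun p => p.1 + (p.2 : ℝ) / Fk m)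

lemma card_Bm (m : ℕ) : (Bm m).card ≤ (m + 1).factorial := by
  induction m with
  | zero => simp [Bm]
  | succ m ih =>
    rw [Bm]
    refine Finset.card_image_le.trans ?_
    rw [Finset.card_product, Finset.card_range, Nat.factorial_succ]
    calc (Bm m).card * (m + 2) ≤ (m + 1).factorial * (m + 2) := Nat.mul_le_mul_right _ ih
      _ = _ := by ring

lemma xm_mem_Bm (m : ℕ) (ω : Om) : xm m ω ∈ Bm m := by
  induction m with
  | zero => simp [xm, Bm]
  | succ m ih =>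
    rw [Bm, Finset.mem_image]
    refine ⟨(xm m ω, (ω m : ℕ)), ?_, ?_⟩
    · rw [Finset.mem_product]
      exact ⟨ih, Finset.mem_range.2 (ω m).2⟩
    · simp only [xm, Finset.sum_range_succ, tm]

noncomputable def Km (m : ℕ) : Set ℝ := ⋃ a ∈ Bm m, Set.Icc a (a + 2 / Lk m)

lemma Xm_mem_Km (m : ℕ) (ω : Om) : Xm ω ∈ Km m := by
  simp only [Km, Set.mem_iUnion]
  exact ⟨xm m ω, xm_mem_Bm m ω, xm_le_Xm m ω, Xm_le m ω⟩

lemma measurableSet_Km (m : ℕ) : MeasurableSet (Km m) :=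
  Finset.measurableSet_biUnion _ (fun _ _ => measurableSet_Icc)

lemma volume_Km (m : ℕ) : volume (Km m) ≤ ENNReal.ofReal (2 / (m + 2).factorial) := by
  have hL : (0 : ℝ) < Lk m := by exact_mod_cast Lk_pos m
  calc volume (Km m) ≤ ∑ a ∈ Bm m, volume (Set.Icc a (a + 2 / Lk m)) := measure_biUnion_finset_le _ _
    _ = ∑ a ∈ Bm m, ENNReal.ofReal (2 / Lk m) := by
        refine Finset.sum_congr rfl (fun a _ => ?_)
        rw [Real.volume_Icc]; congr 1; ring
    _ = ((Bm m).card : ENNReal) * ENNReal.ofReal (2 / Lk m) := by simp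
    _ ≤ ((m + 1).factorial : ENNReal) * ENNReal.ofReal (2 / Lk m) := by
        gcongr
        exact card_Bm m
    _ = ENNReal.ofReal ((m + 1).factorial * (2 / Lk m)) := by
        rw [ENNReal.ofReal_mul (by positivity), ENNReal.ofReal_natCast]
    _ = ENNReal.ofReal (2 / (m + 2).factorial) := by
        congr 1
        unfold Lk
        push_cast
        have : ((m + 1).factorial : ℝ) ≠ 0 := by positivity
        field_simp

lemma mu_singular : mu ⟂ₘ volume := by
  refine ⟨(⋂ m, Km m)ᶜ, (MeasurableSet.iInter measurableSet_Km).compl, ?_, ?_⟩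
  · unfold mu
    rw [Measure.map_apply measurable_Xm (MeasurableSet.iInter measurableSet_Km).compl]
    have : Xm ⁻¹' (⋂ m, Km m)ᶜ = ∅ := by
      ext ω
      simp only [Set.mem_preimage, Set.mem_compl_iff, Set.mem_iInter, Set.mem_empty_iff_false, iff_false, not_not]
      exact fun m => Xm_mem_Km m ω
    rw [this, measure_empty]
  · rw [compl_compl]
    have h1 : ∀ m, volume (⋂ m, Km m) ≤ ENNReal.ofReal (2 / (m + 2).factorial) := fun m =>
      (measure_mono (Set.iInter_subset _ m)).trans (volume_Km m)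
    have h2 : Filter.Tendsto (fun m : ℕ => ENNReal.ofReal (2 / ((m + 2).factorial : ℝ))) Filter.atTop (nhds 0) := by
      rw [← ENNReal.ofReal_zero]
      apply ENNReal.tendsto_ofReal
      have h3 : Filter.Tendsto (fun m : ℕ => ((m + 2).factorial : ℝ)) Filter.atTop Filter.atTop := by
        refine Filter.tendsto_atTop_mono (fun m : ℕ => ?_) (tendsto_natCast_atTop_atTop (R := ℝ))
        have : m ≤ (m + 2).factorial := le_trans (by omega) (Nat.self_le_factorial (m + 2))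
        exact_mod_cast this
      exact h3.const_div_atTop _
    exact le_antisymm (ge_of_tendsto' h2 h1) bot_le

lemma mu_compact : mu (Set.Icc (0 : ℝ) 1)ᶜ = 0 := by
  unfold mu
  rw [Measure.map_apply measurable_Xm measurableSet_Icc.compl]
  have : Xm ⁻¹' (Set.Icc (0 : ℝ) 1)ᶜ = ∅ := by
    ext ω
    simp only [Set.mem_preimage, Set.mem_compl_iff, Set.mem_empty_iff_false, iff_false, not_not]
    have h1 := xm_le_Xm 0 ω
    have h2 := Xm_le 0 ω
    have h3 : (Lk 0 : ℝ) = 2 := by norm_num [Lk, Nat.factorial]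
    rw [h3] at h2
    simp only [xm, Finset.range_zero, Finset.sum_empty] at h1 h2
    exact ⟨h1, by linarith⟩
  rw [this, measure_empty]

end Pool.Agent.Work.MP_90e10c_an
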